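import Pool.Agent.H917R2.BP.Stm

set_option autoImplicit false

open scoped ComplexOrder InnerProductSpace ComplexConjugate Topology
open Filter

namespace H909R2.BP

open H917R2.BP H759R2.Kad H710R2.DP H917R2.Tr

section lift

variable {K K0 : Type} [NormedAddCommGroup K] [InnerProductSpace ℂ K] [CompleteSpace K]
    [NormedAddCommGroup K0] [InnerProductSpace ℂ K0] [CompleteSpace K0]

/-- the compression `x ↦ V* x W` -/
noncomputable def cc (V W : K0 →L[ℂ] K) (x : BH K) : BH K0 :=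
  ContinuousLinearMap.adjoint V ∘L x ∘L W

theorem cc_apply (V W : K0 →L[ℂ] K) (x : BH K) (v : K0) :
    cc V W x v = ContinuousLinearMap.adjoint V (x (W v)) := rfl

theorem cc_add (V W : K0 →L[ℂ] K) (x y : BH K) : cc V W (x + y) = cc V W x + cc V W y := by
  ext v
  simp [cc_apply]

theorem cc_smul (V W : K0 →L[ℂ] K) (c : ℂ) (x : BH K) : cc V W (c • x) = c • cc V W x := by
  ext v
  simp [cc_apply]

theorem cc_star (V W : K0 →L[ℂ] K) (x : BH K) : star (cc V W x) = cc W V (star x) := by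
  unfold cc
  rw [ContinuousLinearMap.star_eq_adjoint, ContinuousLinearMap.star_eq_adjoint,
    ContinuousLinearMap.adjoint_comp, ContinuousLinearMap.adjoint_comp,
    ContinuousLinearMap.adjoint_adjoint]
  rfl

theorem cc_mul {n : ℕ} (V : Fin (n + 1) → (K0 →L[ℂ] K))
    (hV : ∑ i, V i ∘L ContinuousLinearMap.adjoint (V i) = 1) (i j : Fin (n + 1)) (x y : BH K) :
    cc (V i) (V j) (x * y) = ∑ k, cc (V i) (V k) x * cc (V k) (V j) y := by
  ext v
  have h : ∀ w : K, ∑ k, V k (ContinuousLinearMap.adjoint (V k) w) = w := by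
    intro w
    have := congrArg (fun f : K →L[ℂ] K => f w) hV
    simpa using this
  rw [ContinuousLinearMap.sum_apply]
  simp only [ContinuousLinearMap.mul_apply, cc_apply]
  rw [← map_sum, ← map_sum, h]

/-- the lifted functional -/
noncomputable def lf {n : ℕ} (V : Fin (n + 1) → (K0 →L[ℂ] K)) (φ : BH K0 →ₗ[ℂ] ℂ) :
    BH K →ₗ[ℂ] ℂ where
  toFun x := (1 / (n + 1 : ℂ)) * ∑ i, φ (cc (V i) (V i) x)
  map_add' x y := by
    simp only [cc_add, map_add, Finset.sum_add_distrib, mul_add]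
  map_smul' c x := by
    simp only [cc_smul, map_smul, smul_eq_mul, RingHom.id_apply, ← Finset.mul_sum]
    ring

theorem lf_apply {n : ℕ} (V : Fin (n + 1) → (K0 →L[ℂ] K)) (φ : BH K0 →ₗ[ℂ] ℂ) (x : BH K) :
    lf V φ x = (1 / (n + 1 : ℂ)) * ∑ i, φ (cc (V i) (V i) x) := rfl

end lift

theorem t_lift : S_lift := by
  intro K K0 _ _ _ _ _ _ N N0 n V hA hV ζ ζ0 hζ hφ
  obtain ⟨φ, hst, hcen, hvf⟩ := hφ
  have hn : ((n : ℂ) + 1) ≠ 0 := by exact_mod_cast Nat.succ_ne_zero n
  have hn0 : (0 : ℂ) ≤ 1 / (n + 1 : ℂ) := by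
    have h : (0 : ℝ) ≤ 1 / ((n : ℝ) + 1) := by positivity
    have h2 : ((1 / ((n : ℝ) + 1) : ℝ) : ℂ) = 1 / (n + 1 : ℂ) := by push_cast; rfl
    rw [← h2]
    exact_mod_cast h
  refine ⟨lf V φ, ⟨?_, ?_⟩, ?_, ?_⟩
  · rw [lf_apply]
    have h1 : ∀ i, cc (V i) (V i) (1 : BH K) = 1 := by
      intro i
      have := hA.orth i i
      rw [if_pos rfl] at this
      rw [← this]
      ext v
      rfl
    simp only [h1, hst.1, Finset.sum_const, Finset.card_univ, Fintype.card_fin, nsmul_eq_mul,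
      mul_one]
    push_cast
    field_simp
  · intro x
    rw [lf_apply]
    refine mul_nonneg hn0 (Finset.sum_nonneg fun i _ => ?_)
    rw [cc_mul V hV, map_sum]
    refine Finset.sum_nonneg fun k _ => ?_
    have := hst.2 (cc (V k) (V i) x)
    rw [cc_star] at this
    exact this
  · intro m hm x
    rw [lf_apply, lf_apply]
    congr 1
    simp only [cc_mul V hV, map_sum]
    rw [Finset.sum_comm]
    refine Finset.sum_congr rfl fun j _ => Finset.sum_congr rfl fun i _ => ?_
    exact hcen _ (hA.comp m hm i j) _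
  · intro m hm
    rw [lf_apply, hζ m hm]
    congr 1
    refine Finset.sum_congr rfl fun i _ => ?_
    exact hvf _ (hA.comp m hm i i)

end H909R2.BP
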