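import Pool.Agent.H917R2.BP.Stm

set_option autoImplicit false

open scoped ComplexOrder InnerProductSpace ComplexConjugate Topology
open Filter

namespace H909R2.BP

open H917R2.BP H759R2.Kad H710R2.DP H917R2.Tr

section tinj

variable {H Hb : Type} [NormedAddCommGroup H] [InnerProductSpace ℂ H] [CompleteSpace H]
    [NormedAddCommGroup Hb] [InnerProductSpace ℂ Hb] [CompleteSpace Hb]

theorem conj_inner (c : H ≃ₗᵢ⋆[ℂ] Hb) (a b : H) : ⟪c a, c b⟫_ℂ = conj ⟪a, b⟫_ℂ := by
  have e1 : ‖c a + c b‖ = ‖a + b‖ := by rw [← map_add, c.norm_map]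
  have e2 : ‖c a - c b‖ = ‖a - b‖ := by rw [← map_sub, c.norm_map]
  have hI : c (Complex.I • b) = -(Complex.I • c b) := by
    rw [map_smulₛₗ]
    simp
  have e3 : ‖c a - Complex.I • c b‖ = ‖a + Complex.I • b‖ := by
    rw [sub_eq_add_neg, ← hI, ← map_add, c.norm_map]
  have e4 : ‖c a + Complex.I • c b‖ = ‖a - Complex.I • b‖ := by
    have : c a + Complex.I • c b = c (a - Complex.I • b) := by
      rw [map_sub, hI]
      abel
    rw [this, c.norm_map]
  rw [inner_eq_sum_norm_sq_div_four, inner_eq_sum_norm_sq_div_four (𝕜 := ℂ) a b]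
  simp only [RCLike.I_to_complex] at *
  rw [e1, e2, e3, e4]
  have h4 : (starRingEnd ℂ) 4 = 4 := map_ofNat _ 4
  simp only [map_div₀, map_add, map_mul, map_sub, map_pow, Complex.conj_I, h4]
  simp
  ring

end tinj

theorem t_tinj (h0 : S_wf) : S_tinj := by
  intro H Hb _ _ _ _ _ _ c M ξ hC
  obtain ⟨hP, hp, -, hvv, -, -, hTT, -⟩ := h0 H Hb c M ξ
  have horth : ∀ h : WW H Hb, PK c ξ M h = h → ∀ y ∈ M.commutant, ⟪vv c ξ y, h⟫_ℂ = 0 := by
    intro h hh y hy
    have h1 : star (PK c ξ M) = PK c ξ M := hP.1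
    rw [← hh, ← ContinuousLinearMap.adjoint_inner_left, ← ContinuousLinearMap.star_eq_adjoint, h1,
      hvv y hy, inner_zero_left]
  have hinn : ∀ (h : WW H Hb) (y : BH H), ⟪vv c ξ y, h⟫_ℂ =
      ⟪y ξ, h.fst⟫_ℂ - ⟪c (star y ξ), h.snd⟫_ℂ := by
    intro h y
    rw [WithLp.prod_inner_apply]
    simp [vv, sub_eq_add_neg]
  have key1 : ∀ h : WW H Hb, PK c ξ M h = h → pp H Hb h = 0 → h = 0 := by
    intro h hh hph
    rw [pp_apply] at hph
    have hf : h.fst = 0 := by
      have := congrArg (fun w : WW H Hb => w.fst) hph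
      simpa using this
    have hk : c.symm h.snd = 0 := by
      refine hC.cyc' _ fun x hx => ?_
      have hx' : star x ∈ M.commutant := star_mem hx
      have h1 := horth h hh (star x) hx'
      rw [hinn, hf, inner_zero_right, star_star, zero_sub, neg_eq_zero] at h1
      have h2 : h.snd = c (c.symm h.snd) := (c.apply_symm_apply _).symm
      rw [h2, conj_inner, map_eq_zero] at h1
      rw [← inner_conj_symm, h1, map_zero]
    have hs : h.snd = 0 := by
      have h2 : h.snd = c (c.symm h.snd) := (c.apply_symm_apply _).symm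
      rw [h2, hk, map_zero]
    have : h = WithLp.toLp 2 (h.fst, h.snd) := rfl
    rw [this, hf, hs]
    rfl
  have key2 : ∀ h : WW H Hb, PK c ξ M h = h → pp H Hb h = h → h = 0 := by
    intro h hh hph
    rw [pp_apply] at hph
    have hs : h.snd = 0 := by
      have := congrArg (fun w : WW H Hb => w.snd) hph
      simpa using this.symm
    have hf : h.fst = 0 := by
      refine hC.cyc' _ fun x hx => ?_
      have h1 := horth h hh x hx
      rw [hinn, hs, inner_zero_right, sub_zero] at h1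
      rw [← inner_conj_symm, h1, map_zero]
    have : h = WithLp.toLp 2 (h.fst, h.snd) := rfl
    rw [this, hf, hs]
    rfl
  intro h hh
  refine ⟨key1 h hh, key2 h hh, fun hT => ?_⟩
  have h1 : (XX c ξ M * star (XX c ξ M)) h = 0 := by
    rw [← hTT]
    show TT c ξ M (TT c ξ M h) = 0
    rw [hT, map_zero]
  have h2 : star (XX c ξ M) h = 0 := by
    have h3 : ⟪star (XX c ξ M) h, star (XX c ξ M) h⟫_ℂ = 0 := by
      rw [ContinuousLinearMap.star_eq_adjoint, ContinuousLinearMap.adjoint_inner_right,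
        ← ContinuousLinearMap.star_eq_adjoint]
      have : XX c ξ M (star (XX c ξ M) h) = 0 := h1
      rw [this, inner_zero_left]
    exact inner_self_eq_zero.1 h3
  have hPs : star (PK c ξ M) = PK c ξ M := hP.1
  have hps : star (pp H Hb) = pp H Hb := hp.1
  have hpp : pp H Hb * pp H Hb = pp H Hb := hp.2
  have h4 : star (XX c ξ M) = (1 - PK c ξ M) * pp H Hb * PK c ξ M := by
    unfold XX
    rw [star_mul, star_mul, star_sub, star_one, hPs, hps, mul_assoc]
  rw [h4] at h2
  have h5 : pp H Hb h - PK c ξ M (pp H Hb h) = 0 := by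
    have : ((1 - PK c ξ M) * pp H Hb * PK c ξ M) h =
        pp H Hb (PK c ξ M h) - PK c ξ M (pp H Hb (PK c ξ M h)) := rfl
    rw [this, hh] at h2
    exact h2
  have h6 : PK c ξ M (pp H Hb h) = pp H Hb h := (sub_eq_zero.1 h5).symm
  have h7 : pp H Hb (pp H Hb h) = pp H Hb h := congrArg (fun f : BH (WW H Hb) => f h) hpp
  exact key1 h hh (key2 _ h6 h7)

end H909R2.BP
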